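import Pool.Agent.Helper456.ES.Hull

/-!
# Monochromatic cups and caps by chasing neighbours (MP_6c3374_co)

In a two-coloured complete geometric graph on more than `F (2 k²)` points there is a cup or a cap
of `k + 2` points all of whose pairs have the same colour.
-/

set_option autoImplicit false

namespace Pool.Agent.TH357.MonoCup

open Pool.Agent.Helper456.ES Finset
open scoped Classical

/-- all triples of `T`, taken in increasing order of `ψ t`, have the orientation given by `σ` -/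
def CupSet (t σ : ℝ) (T : Finset E) : Prop :=
  ∀ a ∈ T, ∀ b ∈ T, ∀ c ∈ T, ψ t a < ψ t b → ψ t b < ψ t c → 0 < σ * det a b c

lemma CupSet.mono {t σ : ℝ} {T T' : Finset E} (h : CupSet t σ T) (hT : T' ⊆ T) :
    CupSet t σ T' :=
  fun a ha b hb c hc => h a (hT ha) b (hT hb) c (hT hc)

lemma CupSet.insert_max {t σ : ℝ} {T : Finset E} {u v y : E} (hT : CupSet t σ (insert v T))
    (hu : u ∈ T) (humax : ∀ w ∈ T, ψ t w ≤ ψ t u)
    (hinj : ∀ w ∈ T, ψ t w = ψ t u → w = u)
    (huv : ψ t u < ψ t v) (hvy : ψ t v < ψ t y) (hd : 0 < σ * det u v y) :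
    CupSet t σ (insert y (insert v T)) := by
  have hle : ∀ w ∈ insert v T, ψ t w ≤ ψ t v := by
    intro w hw
    rcases mem_insert.mp hw with rfl | hw
    · exact le_rfl
    · exact (humax w hw).trans huv.le
  -- the triples `a < v < y`
  have h1 : ∀ a ∈ T, 0 < σ * det a v y := by
    intro a ha
    rcases (humax a ha).lt_or_eq with hlt | heq
    · exact det_pos_acd hlt huv hvy
        (hT a (mem_insert_of_mem ha) u (mem_insert_of_mem hu) v (mem_insert_self _ _) hlt huv) hd
    · rw [hinj a ha heq]; exact hd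
  have h2 : ∀ a ∈ insert v T, ∀ b ∈ insert v T, ψ t a < ψ t b → 0 < σ * det a b y := by
    intro a ha b hb hab
    have ha' : a ∈ T := by
      rcases mem_insert.mp ha with rfl | ha
      · exact absurd hab (not_lt.mpr (hle b hb))
      · exact ha
    rcases mem_insert.mp hb with rfl | hb'
    · exact h1 a ha'
    · have hbv : ψ t b < ψ t v := (humax b hb').trans_lt huv
      exact det_pos_abd hab hbv hvy
        (hT a ha b hb v (mem_insert_self _ _) hab hbv) (h1 b hb')
  intro a ha b hb c hc hab hbc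
  have hley : ∀ w ∈ insert y (insert v T), ψ t w ≤ ψ t y := by
    intro w hw
    rcases mem_insert.mp hw with rfl | hw
    · exact le_rfl
    · exact (hle w hw).trans hvy.le
  have hb' : b ∈ insert v T := by
    rcases mem_insert.mp hb with rfl | hb
    · exact absurd hbc (not_lt.mpr (hley c hc))
    · exact hb
  have ha' : a ∈ insert v T := by
    rcases mem_insert.mp ha with rfl | ha
    · exact absurd hab (not_lt.mpr ((hley b hb)))
    · exact ha
  rcases mem_insert.mp hc with rfl | hc'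
  · exact h2 a ha' b hb' hab
  · exact hT a ha' b hb' c hc' hab hbc

/-- `F n = 1 + n (1 + (n - 1) (1 + ⋯ ))` -/
def F : ℕ → ℕ
  | 0 => 1
  | n + 1 => 1 + (n + 1) * F n

lemma F_pos (n : ℕ) : 0 < F n := by
  cases n with
  | zero => simp [F]
  | succ n => simp only [F]; omega

/-- a cup (or cap) of `n` points all of whose pairs have colour `c`, whose last point is `v`,
which can be prolonged by `y`, and which sends colour `c` to all of `S` -/
def Good (P : Finset E) (t σ : ℝ) (χ : E → E → Bool) (c : Bool) (n : ℕ) (S : Finset E)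
    (v y : E) : Prop :=
  ∃ T : Finset E, T ⊆ P ∧ T.card = n ∧ v ∈ T ∧ (∀ w ∈ T, ψ t w ≤ ψ t v) ∧
    CupSet t σ (insert y T) ∧ (∀ w ∈ T, ∀ w' ∈ T, w ≠ w' → χ w w' = c) ∧
    (∀ w ∈ T, ∀ z ∈ S, χ w z = c)

lemma Good.mono {P : Finset E} {t σ : ℝ} {χ : E → E → Bool} {c : Bool} {n : ℕ}
    {S S' : Finset E} {v y : E} (h : Good P t σ χ c n S v y) (hS : S' ⊆ S) :
    Good P t σ χ c n S' v y := by
  obtain ⟨T, h1, h2, h3, h4, h5, h6, h7⟩ := h
  exact ⟨T, h1, h2, h3, h4, h5, h6, fun w hw z hz => h7 w hw z (hS hz)⟩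

lemma cupSet_pair {t σ : ℝ} {v y : E} : CupSet t σ (insert y ({v} : Finset E)) := by
  intro a ha b hb c hc hab hbc
  simp only [mem_insert, mem_singleton] at ha hb hc
  rcases ha with rfl | rfl <;> rcases hb with rfl | rfl <;> rcases hc with rfl | rfl <;>
    first
      | exact absurd hab (lt_irrefl _)
      | exact absurd hbc (lt_irrefl _)
      | exact absurd (hab.trans hbc) (lt_irrefl _)

lemma good_new {P : Finset E} {t σ : ℝ} {χ : E → E → Bool} (hsymm : ∀ x y, χ x y = χ y x)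
    (hinj : ∀ p ∈ P, ∀ q ∈ P, ψ t p = ψ t q → p = q)
    {c : Bool} {S S' : Finset E} {v y : E}
    (H : Finset (E × Bool × ℕ × ℕ)) (f : E × Bool × ℕ × ℕ → ℕ)
    (hH : ∀ e ∈ H, Good P t σ χ c (f e) S e.1 v ∧ ψ t e.1 < ψ t v ∧ 0 < σ * det e.1 v y)
    (hvS : v ∈ S) (hvP : v ∈ P) (hS' : S' ⊆ S) (hc : ∀ z ∈ S', χ v z = c)
    (hvy : ψ t v < ψ t y) :
    Good P t σ χ c (1 + H.sup f) S' v y := by
  rcases H.eq_empty_or_nonempty with rfl | hne
  · refine ⟨{v}, by simpa using hvP, by simp, by simp, by simp, cupSet_pair, ?_, ?_⟩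
    · intro w hw w' hw' hne
      rw [mem_singleton] at hw hw'
      exact absurd (hw.trans hw'.symm) hne
    · intro w hw z hz
      rw [mem_singleton] at hw
      rw [hw]; exact hc z hz
  · obtain ⟨e, he, hsup⟩ := Finset.exists_mem_eq_sup H hne f
    obtain ⟨⟨T, h1, h2, h3, h4, h5, h6, h7⟩, hev, hd⟩ := hH e he
    have hvT : v ∉ T := fun h => absurd (h4 v h) (not_le.mpr hev)
    refine ⟨insert v T, ?_, ?_, mem_insert_self _ _, ?_, ?_, ?_, ?_⟩
    · intro w hw
      rcases mem_insert.mp hw with rfl | hw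
      · exact hvP
      · exact h1 hw
    · rw [card_insert_of_notMem hvT, h2, hsup, add_comm]
    · intro w hw
      rcases mem_insert.mp hw with rfl | hw
      · exact le_rfl
      · exact (h4 w hw).trans hev.le
    · exact CupSet.insert_max h5 h3 h4 (fun w hw h => hinj w (h1 hw) _ (h1 h3) h) hev hvy hd
    · intro w hw w' hw' hne'
      rcases mem_insert.mp hw with hw1 | hw1
      · rcases mem_insert.mp hw' with hw2 | hw2
        · exact absurd (hw1.trans hw2.symm) hne'
        · rw [hw1, hsymm]; exact h7 w' hw2 _ hvS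
      · rcases mem_insert.mp hw' with hw2 | hw2
        · rw [hw2]; exact h7 w hw1 _ hvS
        · exact h6 w hw1 w' hw2 hne'
    · intro w hw z hz
      rcases mem_insert.mp hw with rfl | hw
      · exact hc z hz
      · exact h7 w hw z (hS' hz)

/-- the types -/
def box (k : ℕ) : Finset (Bool × ℕ × ℕ) := univ ×ˢ (Icc 1 k ×ˢ Icc 1 k)

lemma card_box (k : ℕ) : (box k).card = 2 * k ^ 2 := by
  simp [box, sq]


section Main

variable {t : ℝ} {χ : E → E → Bool} {k : ℕ} {P : Finset E}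

/-- the invariant of the process -/
def Inv (P : Finset E) (t : ℝ) (χ : E → E → Bool) (S : Finset E)
    (H : Finset (E × Bool × ℕ × ℕ)) : Prop :=
  ∀ e ∈ H, e.1 ∈ P ∧ ∀ y ∈ S, ψ t e.1 < ψ t y ∧
    Good P t 1 χ e.2.1 e.2.2.1 S e.1 y ∧ Good P t (-1) χ e.2.1 e.2.2.2 S e.1 y

/-- the old vertices from which `v` and `y` make a left turn -/
noncomputable def HA (H : Finset (E × Bool × ℕ × ℕ)) (c : Bool) (v y : E) :
    Finset (E × Bool × ℕ × ℕ) :=
  H.filter (fun e => e.2.1 = c ∧ 0 < 1 * det e.1 v y)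

/-- the old vertices from which `v` and `y` make a right turn -/
noncomputable def HB (H : Finset (E × Bool × ℕ × ℕ)) (c : Bool) (v y : E) :
    Finset (E × Bool × ℕ × ℕ) :=
  H.filter (fun e => e.2.1 = c ∧ 0 < (-1) * det e.1 v y)

/-- the type of `y` with respect to `v` and the old vertices -/
noncomputable def typ (χ : E → E → Bool) (H : Finset (E × Bool × ℕ × ℕ)) (v y : E) :
    Bool × ℕ × ℕ :=
  (χ v y, 1 + (HA H (χ v y) v y).sup (fun e => e.2.2.1),
    1 + (HB H (χ v y) v y).sup (fun e => e.2.2.2))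

lemma typ_good (hsymm : ∀ x y, χ x y = χ y x)
    (hinj : ∀ p ∈ P, ∀ q ∈ P, ψ t p = ψ t q → p = q)
    {S S' : Finset E} {H : Finset (E × Bool × ℕ × ℕ)} (hSP : S ⊆ P) (hInv : Inv P t χ S H)
    {v y : E} (hv : v ∈ S) (hvy : ψ t v < ψ t y) (hS' : S' ⊆ S)
    (hc : ∀ z ∈ S', χ v z = χ v y) :
    Good P t 1 χ (typ χ H v y).1 (typ χ H v y).2.1 S' v y ∧
      Good P t (-1) χ (typ χ H v y).1 (typ χ H v y).2.2 S' v y := by
  constructor
  · refine good_new (S := S) hsymm hinj (HA H (χ v y) v y) (fun e => e.2.2.1) ?_ hv (hSP hv)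
      hS' hc hvy
    intro e he
    obtain ⟨he1, he2, he3⟩ := mem_filter.mp he
    obtain ⟨-, h⟩ := hInv e he1
    obtain ⟨h1, h2, -⟩ := h v hv
    rw [he2] at h2
    exact ⟨h2, h1, he3⟩
  · refine good_new (S := S) hsymm hinj (HB H (χ v y) v y) (fun e => e.2.2.2) ?_ hv (hSP hv)
      hS' hc hvy
    intro e he
    obtain ⟨he1, he2, he3⟩ := mem_filter.mp he
    obtain ⟨-, h⟩ := hInv e he1
    obtain ⟨h1, -, h2⟩ := h v hv
    rw [he2] at h2
    exact ⟨h2, h1, he3⟩

/-- a type is at most `k` -/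
lemma good_le {σ : ℝ} {c : Bool} {n : ℕ} {S : Finset E} {v y : E}
    (hsymm : ∀ x y, χ x y = χ y x)
    (hno : ∀ c : Bool, ∀ T ⊆ P, k + 2 ≤ T.card → CupSet t σ T →
      ¬ (∀ x ∈ T, ∀ y ∈ T, x ≠ y → χ x y = c))
    (hy : y ∈ S) (hyP : y ∈ P) (hvy : ψ t v < ψ t y) (h : Good P t σ χ c n S v y) : n ≤ k := by
  obtain ⟨T, h1, h2, h3, h4, h5, h6, h7⟩ := h
  by_contra hcon
  have hyT : y ∉ T := fun hy => absurd (h4 y hy) (not_le.mpr hvy)
  refine hno c (insert y T) ?_ ?_ h5 ?_
  · intro w hw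
    rcases mem_insert.mp hw with rfl | hw
    · exact hyP
    · exact h1 hw
  · rw [card_insert_of_notMem hyT, h2]
    omega
  · intro w hw w' hw' hne'
    rcases mem_insert.mp hw with hw1 | hw1
    · rcases mem_insert.mp hw' with hw2 | hw2
      · exact absurd (hw1.trans hw2.symm) hne'
      · rw [hw1, hsymm]; exact h7 w' hw2 _ hy
    · rcases mem_insert.mp hw' with hw2 | hw2
      · rw [hw2]; exact h7 w hw1 _ hy
      · exact h6 w hw1 w' hw2 hne'

lemma typ_mem (hsymm : ∀ x y, χ x y = χ y x) (hP : GP P)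
    (hinj : ∀ p ∈ P, ∀ q ∈ P, ψ t p = ψ t q → p = q)
    (hno : ∀ σ : ℝ, (σ = 1 ∨ σ = -1) → ∀ c : Bool, ∀ T ⊆ P, k + 2 ≤ T.card → CupSet t σ T →
      ¬ (∀ x ∈ T, ∀ y ∈ T, x ≠ y → χ x y = c))
    {S : Finset E} {H : Finset (E × Bool × ℕ × ℕ)} (hSP : S ⊆ P) (hInv : Inv P t χ S H)
    {v y : E} (hv : v ∈ S) (hy : y ∈ S) (hvy : ψ t v < ψ t y) :
    typ χ H v y ∈ box k \ H.image Prod.snd := by
  have hg := typ_good (S' := {y}) hsymm hinj hSP hInv hv hvy (by simpa using hy)
    (by intro z hz; rw [mem_singleton] at hz; rw [hz])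
  rw [mem_sdiff]
  constructor
  · have h1 := good_le hsymm (hno 1 (Or.inl rfl)) (mem_singleton_self y) (hSP hy) hvy hg.1
    have h2 := good_le hsymm (hno (-1) (Or.inr rfl)) (mem_singleton_self y) (hSP hy) hvy hg.2
    rw [box, mem_product, mem_product, mem_Icc, mem_Icc]
    refine ⟨mem_univ _, ⟨?_, h1⟩, ⟨?_, h2⟩⟩
    · simp [typ]
    · simp [typ]
  · intro hcon
    obtain ⟨e, he, heq⟩ := mem_image.mp hcon
    obtain ⟨heP, h⟩ := hInv e he
    have hev : ψ t e.1 < ψ t v := (h v hv).1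
    have hne1 : e.1 ≠ v := by intro h; rw [h] at hev; exact lt_irrefl _ hev
    have hne2 : e.1 ≠ y := by
      intro h; rw [h] at hev; exact lt_irrefl _ (hev.trans hvy)
    have hne3 : v ≠ y := by intro h; rw [h] at hvy; exact lt_irrefl _ hvy
    have hd := hP e.1 heP v (hSP hv) y (hSP hy) hne1 hne2 hne3
    have hc : e.2.1 = χ v y := by rw [heq]; rfl
    rcases lt_or_gt_of_ne hd with hd | hd
    · have hmem : e ∈ HB H (χ v y) v y := mem_filter.mpr ⟨he, hc, by linarith⟩
      have := Finset.le_sup (f := fun e : E × Bool × ℕ × ℕ => e.2.2.2) hmem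
      have h2 : e.2.2.2 = (typ χ H v y).2.2 := by rw [heq]
      simp only [typ] at h2
      omega
    · have hmem : e ∈ HA H (χ v y) v y := mem_filter.mpr ⟨he, hc, by linarith⟩
      have := Finset.le_sup (f := fun e : E × Bool × ℕ × ℕ => e.2.2.1) hmem
      have h2 : e.2.2.1 = (typ χ H v y).2.1 := by rw [heq]
      simp only [typ] at h2
      omega

/-- **Main combinatorial statement.** -/
theorem core (hsymm : ∀ x y, χ x y = χ y x) (hP : GP P)
    (hinj : ∀ p ∈ P, ∀ q ∈ P, ψ t p = ψ t q → p = q)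
    (hno : ∀ σ : ℝ, (σ = 1 ∨ σ = -1) → ∀ c : Bool, ∀ T ⊆ P, k + 2 ≤ T.card → CupSet t σ T →
      ¬ (∀ x ∈ T, ∀ y ∈ T, x ≠ y → χ x y = c)) :
    ∀ n : ℕ, ∀ S : Finset E, ∀ H : Finset (E × Bool × ℕ × ℕ), S ⊆ P →
      Inv P t χ S H → (box k \ H.image Prod.snd).card ≤ n → S.card ≤ F n := by
  intro n
  induction n with
  | zero =>
    intro S H hSP hInv hcard
    rw [F, card_le_one]
    have key : ∀ a ∈ S, ∀ b ∈ S, ¬ ψ t a < ψ t b := by
      intro a ha b hb hab
      have := card_pos.mpr ⟨_, typ_mem hsymm hP hinj hno hSP hInv ha hb hab⟩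
      omega
    intro a ha b hb
    exact hinj a (hSP ha) b (hSP hb)
      (le_antisymm (not_lt.mp (key b hb a ha)) (not_lt.mp (key a ha b hb)))
  | succ n ih =>
    intro S H hSP hInv hcard
    rcases S.eq_empty_or_nonempty with rfl | hne
    · simp
    obtain ⟨v, hv, hvmin⟩ := S.exists_min_image (ψ t) hne
    have hlt : ∀ y ∈ S.erase v, ψ t v < ψ t y := by
      intro y hy
      obtain ⟨hyv, hyS⟩ := mem_erase.mp hy
      refine lt_of_le_of_ne (hvmin y hyS) ?_
      intro h
      exact hyv (hinj v (hSP hv) y (hSP hyS) h).symm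
    have hmaps : ∀ y ∈ S.erase v, typ χ H v y ∈ box k \ H.image Prod.snd := by
      intro y hy
      exact typ_mem hsymm hP hinj hno hSP hInv hv (mem_of_mem_erase hy) (hlt y hy)
    have hfib : ∀ τ ∈ box k \ H.image Prod.snd,
        ((S.erase v).filter (fun y => typ χ H v y = τ)).card ≤ F n := by
      intro τ hτ
      refine ih _ (insert (v, τ) H) ((filter_subset _ _).trans ((erase_subset _ _).trans hSP))
        ?_ ?_
      · intro e he
        rcases mem_insert.mp he with rfl | he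
        · refine ⟨hSP hv, ?_⟩
          intro y hy
          obtain ⟨hy1, hy2⟩ := mem_filter.mp hy
          refine ⟨hlt y hy1, ?_⟩
          have := typ_good (S' := (S.erase v).filter (fun y => typ χ H v y = τ)) hsymm hinj
            hSP hInv hv (hlt y hy1) ((filter_subset _ _).trans (erase_subset _ _)) ?_
          · rw [hy2] at this
            exact this
          · intro z hz
            obtain ⟨-, hz2⟩ := mem_filter.mp hz
            have h1 : (typ χ H v z).1 = (typ χ H v y).1 := by rw [hz2, hy2]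
            exact h1
        · obtain ⟨h1, h2⟩ := hInv e he
          refine ⟨h1, ?_⟩
          intro y hy
          have hsub : (S.erase v).filter (fun y => typ χ H v y = τ) ⊆ S :=
            (filter_subset _ _).trans (erase_subset _ _)
          obtain ⟨h3, h4, h5⟩ := h2 y (hsub hy)
          exact ⟨h3, h4.mono hsub, h5.mono hsub⟩
      · have hsub : box k \ (insert (v, τ) H).image Prod.snd ⊆
            (box k \ H.image Prod.snd).erase τ := by
          intro x hx
          obtain ⟨hx1, hx2⟩ := mem_sdiff.mp hx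
          rw [image_insert, mem_insert, not_or] at hx2
          exact mem_erase.mpr ⟨hx2.1, mem_sdiff.mpr ⟨hx1, hx2.2⟩⟩
        have h1 := card_le_card hsub
        rw [card_erase_of_mem hτ] at h1
        omega
    have h1 := card_eq_sum_card_fiberwise hmaps
    have h2 := sum_le_card_nsmul (box k \ H.image Prod.snd)
      (fun τ => ((S.erase v).filter (fun y => typ χ H v y = τ)).card) (F n) hfib
    have h3 : (S.erase v).card ≤ (n + 1) * F n := by
      rw [h1]
      refine h2.trans ?_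
      rw [smul_eq_mul]
      exact Nat.mul_le_mul_right _ hcard
    have h4 := card_erase_add_one hv
    rw [F]
    omega

/-- more than `F (2 k²)` points contain a monochromatic cup or cap of `k + 2` points -/
theorem exists_mono_cup_or_cap (χ : E → E → Bool) (hsymm : ∀ x y, χ x y = χ y x) (k : ℕ)
    {P : Finset E} (hP : GP P) {t : ℝ} (hinj : ∀ p ∈ P, ∀ q ∈ P, ψ t p = ψ t q → p = q)
    (hcard : F (2 * k ^ 2) < P.card) :
    ∃ σ : ℝ, (σ = 1 ∨ σ = -1) ∧ ∃ c : Bool, ∃ T ⊆ P, T.card = k + 2 ∧ CupSet t σ T ∧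
      ∀ x ∈ T, ∀ y ∈ T, x ≠ y → χ x y = c := by
  by_contra hcon
  push Not at hcon
  have hno : ∀ σ : ℝ, (σ = 1 ∨ σ = -1) → ∀ c : Bool, ∀ T ⊆ P, k + 2 ≤ T.card → CupSet t σ T →
      ¬ (∀ x ∈ T, ∀ y ∈ T, x ≠ y → χ x y = c) := by
    intro σ hσ c T hT hTc hcup hmono
    obtain ⟨T', hT', hT'c⟩ := exists_subset_card_eq hTc
    obtain ⟨x, hx, y, hy, hxy, h⟩ := hcon σ hσ c T' (hT'.trans hT) hT'c (hcup.mono hT')
    exact h (hmono x (hT' hx) y (hT' hy) hxy)
  have := core hsymm hP hinj hno (2 * k ^ 2) P ∅ (Subset.refl _) (by intro e he; simp at he)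
    (by rw [image_empty, sdiff_empty, card_box])
  omega

end Main

end Pool.Agent.TH357.MonoCup
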