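import Pool.Agent.TH357.MonoCup

/-!
# Cups and caps are in convex position; size of `F` (MP_6c3374_co)
-/

set_option autoImplicit false

namespace Pool.Agent.TH357.MonoCup

open Pool.Agent.Helper456.ES Finset
open scoped Classical

/-- a set of at least three points whose triples all have the same orientation is in convex
position -/
lemma CupSet.convex {t σ : ℝ} {T : Finset E} (hT : CupSet t σ T) (hGP : GP T)
    (hinj : ∀ p ∈ T, ∀ q ∈ T, ψ t p = ψ t q → p = q) (hσ : σ ≠ 0) (h2 : 2 ≤ T.card)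
    {v : E} (hv : v ∈ T) : v ∉ convexHull ℝ ((T : Set E) \ {v}) := by
  -- it suffices to find an edge at `v`
  suffices h : ∃ a ∈ T, ∃ b ∈ T, a ≠ b ∧ (v = a ∨ v = b) ∧ ∀ z ∈ T, 0 ≤ σ * det a b z by
    obtain ⟨a, ha, b, hb, hab, hvab, hz⟩ := h
    obtain ⟨h1, h2⟩ := hv_of_edge hGP ha hb hab hσ hz
    rcases hvab with rfl | rfl
    · exact (mem_HV.mp h1).2
    · exact (mem_HV.mp h2).2
  have hne : ∀ a ∈ T, ∀ b ∈ T, a ≠ b → ψ t a ≠ ψ t b := fun a ha b hb hab h =>
    hab (hinj a ha b hb h)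
  by_cases hmax : ∃ w ∈ T, ψ t v < ψ t w
  · -- the next point to the right of `v`
    obtain ⟨w, hw, hmin⟩ := (T.filter (fun w => ψ t v < ψ t w)).exists_min_image (ψ t)
      (by obtain ⟨w, hw, h⟩ := hmax; exact ⟨w, mem_filter.mpr ⟨hw, h⟩⟩)
    obtain ⟨hwT, hvw⟩ := mem_filter.mp hw
    refine ⟨v, hv, w, hwT, ?_, Or.inl rfl, ?_⟩
    · rintro rfl; exact lt_irrefl _ hvw
    intro z hz
    by_cases hzv : z = v
    · rw [hzv, det_left, mul_zero]
    by_cases hzw : z = w
    · rw [hzw, det_right, mul_zero]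
    rcases lt_or_gt_of_ne (hne z hz v hv hzv) with h | h
    · rw [← det_rot]; exact (hT z hz v hv w hwT h hvw).le
    · have h' : ψ t w ≤ ψ t z := hmin z (mem_filter.mpr ⟨hz, h⟩)
      have h'' : ψ t w < ψ t z := lt_of_le_of_ne h' (hne w hwT z hz (Ne.symm hzw))
      exact (hT v hv w hwT z hz hvw h'').le
  · -- `v` is the last point; take the previous one
    push Not at hmax
    obtain ⟨u0, hu0, hu0v⟩ : ∃ u ∈ T, u ≠ v := by
      obtain ⟨a, ha, b, hb, hab⟩ := one_lt_card.mp h2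
      by_cases h : a = v
      · exact ⟨b, hb, fun h' => hab (h.trans h'.symm)⟩
      · exact ⟨a, ha, h⟩
    obtain ⟨u, hu, humax⟩ := (T.erase v).exists_max_image (ψ t)
      ⟨u0, mem_erase.mpr ⟨hu0v, hu0⟩⟩
    obtain ⟨huv, huT⟩ := mem_erase.mp hu
    have huv' : ψ t u < ψ t v := lt_of_le_of_ne (hmax u huT) (hne u huT v hv huv)
    refine ⟨u, huT, v, hv, huv, Or.inr rfl, ?_⟩
    intro z hz
    by_cases hzv : z = v
    · rw [hzv, det_right, mul_zero]
    by_cases hzu : z = u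
    · rw [hzu, det_left, mul_zero]
    have h1 : ψ t z ≤ ψ t u := humax z (mem_erase.mpr ⟨hzv, hz⟩)
    have h2 : ψ t z < ψ t u := lt_of_le_of_ne h1 (hne z hz u huT hzu)
    rw [← det_rot]
    exact (hT z hz u huT v hv h2 huv').le

/-! ### The size of `F` -/

lemma F_eq_sum (n : ℕ) : (F n : ℝ) = n.factorial * ∑ j ∈ range (n + 1), (1 : ℝ) ^ j / j.factorial := by
  induction n with
  | zero => simp [F]
  | succ n ih =>
    rw [sum_range_succ, F]
    push_cast
    rw [ih, Nat.factorial_succ]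
    have h : ((n + 1 : ℕ) : ℝ) * (n.factorial : ℝ) ≠ 0 := by positivity
    push_cast at h ⊢
    rw [one_pow, mul_add, mul_one_div_cancel h]
    ring

lemma F_le_exp (n : ℕ) : F n ≤ ⌊Real.exp 1 * n.factorial⌋₊ := by
  apply Nat.le_floor
  rw [F_eq_sum, mul_comm]
  exact mul_le_mul_of_nonneg_right (Real.sum_le_exp_of_nonneg zero_le_one (n + 1))
    (by positivity)

lemma F_add_one_le (n : ℕ) (hn : 2 ≤ n) : F n + 1 ≤ (n + 1) ^ n := by
  induction n, hn using Nat.le_induction with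
  | base => simp [F]
  | succ n hn ih =>
    have h1 : (n + 1) * (F n + 1) ≤ (n + 1) ^ (n + 1) := by
      rw [pow_succ, mul_comm]
      exact Nat.mul_le_mul_right _ ih
    have h2 : (n + 1) ^ (n + 1) ≤ (n + 1 + 1) ^ (n + 1) := Nat.pow_le_pow_left (by omega) _
    rw [F]
    have h3 : (n + 1) * (F n + 1) = (n + 1) * F n + (n + 1) := by ring
    omega

end Pool.Agent.TH357.MonoCup
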